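import Pool.Agent.H43.G.R_seed8.H376R2.MR.Defs

/-! Task FEJ: the Fejer kernel. -/

set_option autoImplicit false

namespace Pool.Agent.H376R2.MR
open Finset Filter

lemma fej_FK_one {M : Type*} [AddCommMonoid M] (f : ℤ → M) : ∑ k ∈ FK 1, f k = f 0 := by
  have : FK 1 = {0} := by
    ext k
    simp only [FK, Finset.mem_Ioo, Finset.mem_singleton]
    push_cast
    omega
  rw [this, Finset.sum_singleton]

lemma fej_FK_succ {M : Type*} [AddCommMonoid M] (f : ℤ → M) {K : ℕ} (hK : 1 ≤ K) :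
    ∑ k ∈ FK (K + 1), f k = f K + (f (-K) + ∑ k ∈ FK K, f k) := by
  have h : FK (K + 1) = insert (K : ℤ) (insert (-(K : ℤ)) (FK K)) := by
    ext k
    simp only [FK, Finset.mem_Ioo, Finset.mem_insert]
    push_cast
    omega
  rw [h, Finset.sum_insert, Finset.sum_insert]
  · simp [FK]
  · simp only [FK, Finset.mem_Ioo, Finset.mem_insert, not_or]
    omega

/-- `∑_{j<K} cos((K-j)u)` -/
noncomputable def fejS (K : ℕ) (u : ℝ) : ℝ := ∑ j ∈ range K, Real.cos (((K : ℝ) - j) * u)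

lemma fejS_succ (K : ℕ) (u : ℝ) : fejS (K + 1) u = fejS K u + Real.cos (((K : ℝ) + 1) * u) := by
  unfold fejS
  rw [Finset.sum_range_succ']
  congr 1
  · refine Finset.sum_congr rfl fun j _ => ?_
    congr 1
    push_cast
    ring
  · congr 1
    push_cast
    ring

lemma fejC (K : ℕ) (u : ℝ) : ∑ k ∈ FK (K + 1), Real.cos (k * u) = 1 + 2 * fejS K u := by
  induction K with
  | zero =>
    rw [zero_add, fej_FK_one]
    simp [fejS]
  | succ K ih =>
    rw [fej_FK_succ _ (by omega), ih, fejS_succ]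
    push_cast
    rw [neg_mul, Real.cos_neg]
    ring

/-- `A_K = ∑_{|k|<K} (K-|k|) cos(ku)` -/
noncomputable def fejA (K : ℕ) (u : ℝ) : ℝ := ∑ k ∈ FK K, ((K : ℝ) - |(k : ℝ)|) * Real.cos (k * u)

lemma fejA_zero (u : ℝ) : fejA 0 u = 0 := by
  have : FK 0 = ∅ := by simp [FK]
  simp [fejA, this]

lemma fejA_succ (K : ℕ) (u : ℝ) : fejA (K + 1) u = fejA K u + (1 + 2 * fejS K u) := by
  rcases Nat.eq_zero_or_pos K with h | h
  · subst h
    rw [fejA_zero, zero_add]
    unfold fejA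
    rw [fej_FK_one]
    simp [fejS]
  · rw [← fejC]
    unfold fejA
    rw [fej_FK_succ _ h, fej_FK_succ _ h]
    have h1 : ∑ k ∈ FK K, (((K + 1 : ℕ) : ℝ) - |(k : ℝ)|) * Real.cos (k * u) =
        ∑ k ∈ FK K, ((K : ℝ) - |(k : ℝ)|) * Real.cos (k * u) + ∑ k ∈ FK K, Real.cos (k * u) := by
      rw [← Finset.sum_add_distrib]
      refine Finset.sum_congr rfl fun k _ => ?_
      push_cast
      ring
    rw [h1]
    have h2 : |((K : ℤ) : ℝ)| = K := by simp
    have h3 : |((-(K : ℤ) : ℤ) : ℝ)| = K := by simp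
    rw [h2, h3]
    push_cast
    ring

lemma fej_norm (K : ℕ) (u : ℝ) :
    ‖∑ j ∈ range K, Complex.exp (Complex.I * u) ^ j‖ ^ 2 = fejA K u := by
  induction K with
  | zero => simp [fejA_zero]
  | succ K ih =>
    rw [fejA_succ, ← ih, Finset.sum_range_succ]
    set D := ∑ j ∈ range K, Complex.exp (Complex.I * u) ^ j with hD
    have hz : ∀ j : ℕ, Complex.exp (Complex.I * u) ^ j = Complex.exp (((j * u : ℝ) : ℂ) * Complex.I) := by
      intro j
      rw [← Complex.exp_nat_mul]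
      congr 1
      push_cast
      ring
    have h1 : ‖D + Complex.exp (Complex.I * u) ^ K‖ ^ 2 =
        ‖D‖ ^ 2 + 1 + 2 * (D * (starRingEnd ℂ) (Complex.exp (Complex.I * u) ^ K)).re := by
      rw [← Complex.normSq_eq_norm_sq, ← Complex.normSq_eq_norm_sq, Complex.normSq_add]
      have h2 : Complex.normSq (Complex.exp (Complex.I * u) ^ K) = 1 := by
        rw [hz, Complex.normSq_eq_norm_sq, Complex.norm_exp_ofReal_mul_I]
        norm_num
      rw [h2]
    rw [h1]
    have h3 : (D * (starRingEnd ℂ) (Complex.exp (Complex.I * u) ^ K)).re = fejS K u := by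
      rw [hD, Finset.sum_mul, Complex.re_sum]
      unfold fejS
      refine Finset.sum_congr rfl fun j _ => ?_
      rw [hz, hz, ← Complex.exp_conj, ← Complex.exp_add]
      have h4 : ((j * u : ℝ) : ℂ) * Complex.I + (starRingEnd ℂ) (((K * u : ℝ) : ℂ) * Complex.I) =
          ((-(((K : ℝ) - j) * u) : ℝ) : ℂ) * Complex.I := by
        rw [map_mul, Complex.conj_I, Complex.conj_ofReal]
        push_cast
        ring
      rw [h4, Complex.exp_ofReal_mul_I_re, Real.cos_neg]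
    rw [h3]
    ring

lemma fej_mul (K : ℕ) (u : ℝ) : (K : ℝ) * Fj K u = fejA K u := by
  rcases Nat.eq_zero_or_pos K with h | h
  · subst h
    rw [fejA_zero]
    simp
  · have hK : (0 : ℝ) < K := by exact_mod_cast h
    unfold Fj fejA
    rw [Finset.mul_sum]
    refine Finset.sum_congr rfl fun k _ => ?_
    field_simp

lemma fej_eq_norm (K : ℕ) (u : ℝ) : (K : ℝ) * Fj K u =
    ‖∑ j ∈ range K, Complex.exp (Complex.I * u) ^ j‖ ^ 2 := by
  rw [fej_mul, fej_norm]

lemma Fj_zero (u : ℝ) : Fj 0 u = 0 := by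
  have : FK 0 = ∅ := by simp [FK]
  simp [Fj, this]

theorem Fj_nonneg (K : ℕ) (u : ℝ) : 0 ≤ Fj K u := by
  rcases Nat.eq_zero_or_pos K with h | h
  · subst h
    rw [Fj_zero]
  · have hK : (0 : ℝ) < K := by exact_mod_cast h
    have h1 : 0 ≤ (K : ℝ) * Fj K u := by
      rw [fej_eq_norm]
      positivity
    exact (mul_nonneg_iff_of_pos_left hK).1 h1

theorem Fj_le (K : ℕ) (u : ℝ) : Fj K u ≤ K := by
  rcases Nat.eq_zero_or_pos K with h | h
  · subst h
    rw [Fj_zero]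
    simp
  · have hK : (0 : ℝ) < K := by exact_mod_cast h
    have h1 : (K : ℝ) * Fj K u ≤ K * K := by
      rw [fej_eq_norm, ← sq]
      gcongr
      refine (norm_sum_le _ _).trans ?_
      have h2 : ∀ j ∈ range K, ‖Complex.exp (Complex.I * u) ^ j‖ ≤ 1 := by
        intro j _
        rw [norm_pow, mul_comm Complex.I, Complex.norm_exp_ofReal_mul_I, one_pow]
      refine (Finset.sum_le_sum h2).trans ?_
      simp
    exact le_of_mul_le_mul_left h1 hK

theorem Fj_le_sq {K : ℕ} (hK : 1 ≤ K) {u : ℝ} (hu : u ≠ 0) (hu2 : |u| ≤ Real.pi) :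
    Fj K u ≤ Real.pi ^ 2 / (K * u ^ 2) := by
  have hK0 : (0 : ℝ) < K := by exact_mod_cast hK
  have hpi := Real.pi_pos
  have hu0 : 0 < |u| := abs_pos.2 hu
  set D := ∑ j ∈ range K, Complex.exp (Complex.I * u) ^ j with hD
  have h1 : D * (Complex.exp (Complex.I * u) - 1) = Complex.exp (Complex.I * u) ^ K - 1 :=
    geom_sum_mul _ _
  have h2 : 2 * (|u| / Real.pi) ≤ ‖Complex.exp (Complex.I * u) - 1‖ := by
    rw [Complex.norm_exp_I_mul_ofReal_sub_one, Real.norm_eq_abs, abs_mul,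
      abs_of_pos (by norm_num : (0 : ℝ) < 2)]
    have h3 : 2 / Real.pi * |u / 2| ≤ |Real.sin (u / 2)| := by
      apply Real.mul_abs_le_abs_sin
      rw [abs_div, abs_of_pos (by norm_num : (0 : ℝ) < 2)]
      linarith
    rw [abs_div, abs_of_pos (by norm_num : (0 : ℝ) < 2)] at h3
    have h4 : 2 / Real.pi * (|u| / 2) = |u| / Real.pi := by
      field_simp
    rw [h4] at h3
    linarith
  have h5 : ‖Complex.exp (Complex.I * u) ^ K - 1‖ ≤ 2 := by
    refine (norm_sub_le _ _).trans ?_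
    rw [norm_pow, mul_comm Complex.I, Complex.norm_exp_ofReal_mul_I, one_pow, norm_one]
    norm_num
  have h6 : ‖D‖ * (2 * (|u| / Real.pi)) ≤ 2 := by
    calc ‖D‖ * (2 * (|u| / Real.pi)) ≤ ‖D‖ * ‖Complex.exp (Complex.I * u) - 1‖ := by gcongr
      _ = ‖Complex.exp (Complex.I * u) ^ K - 1‖ := by rw [← norm_mul, h1]
      _ ≤ 2 := h5
  have h7 : ‖D‖ ≤ Real.pi / |u| := by
    rw [le_div_iff₀ hu0]
    have : ‖D‖ * (2 * (|u| / Real.pi)) = 2 * (‖D‖ * |u|) / Real.pi := by ring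
    rw [this, div_le_iff₀ hpi] at h6
    linarith
  have h8 : (K : ℝ) * Fj K u ≤ Real.pi ^ 2 / u ^ 2 := by
    rw [fej_eq_norm, ← sq_abs u, ← div_pow]
    gcongr
  rw [le_div_iff₀ (by positivity)]
  have hu2 : 0 < u ^ 2 := by positivity
  rw [le_div_iff₀ hu2] at h8
  linarith

lemma fej_sin (K : ℕ) (u : ℝ) : ∑ k ∈ FK K, (1 - |(k : ℝ)| / K) * Real.sin (k * u) = 0 := by
  have h : ∑ k ∈ FK K, (1 - |(k : ℝ)| / K) * Real.sin (k * u) =
      ∑ k ∈ FK K, -((1 - |(k : ℝ)| / K) * Real.sin (k * u)) := by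
    refine Finset.sum_equiv (Equiv.neg ℤ) (fun k => ?_) (fun k _ => ?_)
    · simp only [FK, Finset.mem_Ioo, Equiv.neg_apply]
      omega
    · simp only [Equiv.neg_apply, Int.cast_neg, abs_neg, neg_mul, Real.sin_neg]
      ring
  rw [Finset.sum_neg_distrib] at h
  linarith

lemma fej_exp (K : ℕ) (u : ℝ) :
    ∑ k ∈ FK K, ((1 - |(k : ℝ)| / K : ℝ) : ℂ) * Complex.exp (-((k * u : ℝ) : ℂ) * Complex.I) =
      (Fj K u : ℂ) := by
  apply Complex.ext
  · rw [Complex.re_sum, Complex.ofReal_re]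
    unfold Fj
    refine Finset.sum_congr rfl fun k _ => ?_
    rw [Complex.re_ofReal_mul, ← Complex.ofReal_neg, Complex.exp_ofReal_mul_I_re, Real.cos_neg]
  · rw [Complex.im_sum, Complex.ofReal_im]
    have h1 : ∀ k ∈ FK K, (((1 - |(k : ℝ)| / K : ℝ) : ℂ) *
        Complex.exp (-((k * u : ℝ) : ℂ) * Complex.I)).im =
        -((1 - |(k : ℝ)| / K) * Real.sin (k * u)) := by
      intro k _
      rw [Complex.im_ofReal_mul, ← Complex.ofReal_neg, Complex.exp_ofReal_mul_I_im, Real.sin_neg]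
      ring
    rw [Finset.sum_congr rfl h1, Finset.sum_neg_distrib, fej_sin, neg_zero]

theorem En_eq (K : ℕ) (s : Finset ℕ) (a : ℕ → ℂ) :
    (En K s a : ℂ) = ∑ m ∈ s, ∑ n ∈ s, a m * (starRingEnd ℂ) (a n) *
      (Fj K (Real.log m - Real.log n) : ℂ) := by
  unfold En
  rw [Complex.ofReal_sum]
  have h1 : ∀ k ∈ FK K, (((1 - |(k : ℝ)| / K) * ‖DP s a k‖ ^ 2 : ℝ) : ℂ) =
      ∑ m ∈ s, ∑ n ∈ s, a m * (starRingEnd ℂ) (a n) * (((1 - |(k : ℝ)| / K : ℝ) : ℂ) *
        Complex.exp (-((k * (Real.log m - Real.log n) : ℝ) : ℂ) * Complex.I)) := by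
    intro k _
    have h2 : (((‖DP s a k‖ ^ 2 : ℝ)) : ℂ) = DP s a k * (starRingEnd ℂ) (DP s a k) := by
      rw [Complex.mul_conj, Complex.normSq_eq_norm_sq]
    rw [Complex.ofReal_mul, h2]
    unfold DP
    rw [map_sum, Finset.sum_mul_sum, Finset.mul_sum]
    refine Finset.sum_congr rfl fun m _ => ?_
    rw [Finset.mul_sum]
    refine Finset.sum_congr rfl fun n _ => ?_
    rw [map_mul]
    unfold ch
    rw [← Complex.exp_conj]
    have h3 : Complex.exp (-((k * (Real.log m - Real.log n) : ℝ) : ℂ) * Complex.I) =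
        Complex.exp (-((k * Real.log m : ℝ) : ℂ) * Complex.I) *
        Complex.exp ((starRingEnd ℂ) (-((k * Real.log n : ℝ) : ℂ) * Complex.I)) := by
      rw [← Complex.exp_add]
      congr 1
      rw [map_mul, map_neg, Complex.conj_I, Complex.conj_ofReal]
      push_cast
      ring
    rw [h3]
    ring
  rw [Finset.sum_congr rfl h1, Finset.sum_comm]
  refine Finset.sum_congr rfl fun m _ => ?_
  rw [Finset.sum_comm]
  refine Finset.sum_congr rfl fun n _ => ?_
  rw [← Finset.mul_sum, fej_exp]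

end Pool.Agent.H376R2.MR
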