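import Pool.Agent.H43.G.R_seed8.H376R2.MR.Defs
import Pool.Agent.H43.G.R_seed8.H376R2.MR.Fej

/-!
Project MR: mean value theorem for integer frequencies (task MV).
-/

set_option autoImplicit false

namespace Pool.Agent.H376R2.MR

open Finset

theorem mv_sum_inv_sq (T : Finset ℕ) (D : ℕ) (hD : 1 ≤ D) (hT : ∀ d ∈ T, D < d) :
    ∑ d ∈ T, 1 / (d : ℝ) ^ 2 ≤ 1 / (D : ℝ) := by
  set M : ℕ := max D (T.sup id) with hM
  have hsub : T ⊆ Ioc D M := by
    intro d hd
    rw [Finset.mem_Ioc]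
    exact ⟨hT d hd, le_trans (Finset.le_sup (f := id) hd) (le_max_right _ _)⟩
  have h1 : ∑ d ∈ T, 1 / (d : ℝ) ^ 2 ≤ ∑ d ∈ Ioc D M, 1 / (d : ℝ) ^ 2 :=
    Finset.sum_le_sum_of_subset_of_nonneg hsub fun _ _ _ => by positivity
  have h2 := sum_Ioc_inv_sq_le_sub (α := ℝ) (k := D) (n := M) (by omega) (le_max_left _ _)
  have h3 : (0 : ℝ) ≤ (M : ℝ)⁻¹ := by positivity
  calc ∑ d ∈ T, 1 / (d : ℝ) ^ 2 ≤ ∑ d ∈ Ioc D M, 1 / (d : ℝ) ^ 2 := h1
    _ = ∑ d ∈ Ioc D M, ((d : ℝ) ^ 2)⁻¹ := by simp only [one_div]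
    _ ≤ (D : ℝ)⁻¹ - (M : ℝ)⁻¹ := h2
    _ ≤ 1 / (D : ℝ) := by rw [one_div]; linarith

theorem mv_log {N m n : ℝ} (hN : 1 ≤ N) (hm : N ≤ m) (hm' : m ≤ Real.exp 1 * N)
    (hn : N ≤ n) (hnm : n ≤ m) :
    (m - n) / (Real.exp 1 * N) ≤ Real.log m - Real.log n ∧ Real.log m - Real.log n ≤ 1 := by
  have hn0 : 0 < n := by linarith
  have hm0 : 0 < m := by linarith
  have hN0 : 0 < N := by linarith
  constructor
  · have h1 : 1 - (m / n)⁻¹ ≤ Real.log (m / n) := Real.one_sub_inv_le_log_of_pos (by positivity)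
    rw [Real.log_div hm0.ne' hn0.ne'] at h1
    refine le_trans ?_ h1
    rw [inv_div]
    have h2 : 1 - n / m = (m - n) / m := by
      field_simp
    rw [h2]
    exact div_le_div_of_nonneg_left (by linarith) hm0 hm'
  · have h1 : Real.log m ≤ 1 + Real.log N := by
      have := Real.log_le_log hm0 hm'
      rwa [Real.log_mul (Real.exp_pos 1).ne' hN0.ne', Real.log_exp] at this
    have h2 : Real.log N ≤ Real.log n := Real.log_le_log hN0 hn
    linarith

/-- bound for the kernel -/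
theorem mv_Fj {N : ℝ} {K m n : ℕ} (hK : 1 ≤ K) (hN : 1 ≤ N) (hm : N ≤ m)
    (hm' : (m : ℝ) ≤ Real.exp 1 * N) (hn : N ≤ n) (hn' : (n : ℝ) ≤ Real.exp 1 * N) (hmn : m ≠ n) :
    Fj (2 * K) (Real.log m - Real.log n) ≤
      Real.pi ^ 2 * Real.exp 1 ^ 2 * N ^ 2 / (2 * K) * (1 / ((m : ℝ) - n) ^ 2) := by
  have hN0 : 0 < N := by linarith
  have hK0 : (0 : ℝ) < K := by exact_mod_cast hK
  have hne : (m : ℝ) - n ≠ 0 := by
    intro h
    apply hmn
    have : (m : ℝ) = n := by linarith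
    exact_mod_cast this
  have key : |(m : ℝ) - n| / (Real.exp 1 * N) ≤ |Real.log m - Real.log n| ∧
      |Real.log m - Real.log n| ≤ 1 := by
    rcases le_total (n : ℝ) m with h | h
    · obtain ⟨h1, h2⟩ := mv_log hN hm hm' hn h
      rw [abs_of_nonneg (by linarith : (0 : ℝ) ≤ (m : ℝ) - n)]
      have h3 : 0 ≤ (m - n) / (Real.exp 1 * N) :=
        div_nonneg (by linarith) (by positivity)
      rw [abs_of_nonneg (h3.trans h1)]
      exact ⟨h1, h2⟩
    · obtain ⟨h1, h2⟩ := mv_log hN hn hn' hm h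
      rw [abs_sub_comm (m : ℝ) n, abs_sub_comm (Real.log m),
        abs_of_nonneg (by linarith : (0 : ℝ) ≤ (n : ℝ) - m)]
      have h3 : 0 ≤ (n - m) / (Real.exp 1 * N) :=
        div_nonneg (by linarith) (by positivity)
      rw [abs_of_nonneg (h3.trans h1)]
      exact ⟨h1, h2⟩
  have habs : 0 < |(m : ℝ) - n| := abs_pos.mpr hne
  have hu0 : 0 < |Real.log m - Real.log n| := lt_of_lt_of_le (by positivity) key.1
  have hu : Real.log m - Real.log n ≠ 0 := abs_pos.mp hu0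
  have hpi : |Real.log m - Real.log n| ≤ Real.pi :=
    key.2.trans (by linarith [Real.pi_gt_three])
  have h1 := Fj_le_sq (K := 2 * K) (by omega) hu hpi
  refine h1.trans ?_
  have h2 : ((m : ℝ) - n) ^ 2 / (Real.exp 1 * N) ^ 2 ≤ (Real.log m - Real.log n) ^ 2 := by
    rw [← sq_abs ((m : ℝ) - n), ← sq_abs (Real.log m - Real.log n), ← div_pow]
    exact pow_le_pow_left₀ (by positivity) key.1 2
  have h3 : 0 < ((m : ℝ) - n) ^ 2 := by positivity
  push_cast
  calc Real.pi ^ 2 / (2 * K * (Real.log m - Real.log n) ^ 2)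
      ≤ Real.pi ^ 2 / (2 * K * (((m : ℝ) - n) ^ 2 / (Real.exp 1 * N) ^ 2)) := by
        apply div_le_div_of_nonneg_left (by positivity) (by positivity)
        exact mul_le_mul_of_nonneg_left h2 (by positivity)
    _ = Real.pi ^ 2 * Real.exp 1 ^ 2 * N ^ 2 / (2 * K) * (1 / ((m : ℝ) - n) ^ 2) := by
        field_simp

/-- the kernel summed over one variable; `G` stands for `u ↦ Fj (2K) (±u)` -/
theorem mv_row {N : ℝ} {K m : ℕ} (hK : 1 ≤ K) (hN : 1 ≤ N) (s : Finset ℕ) (G : ℕ → ℝ)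
    (hG1 : ∀ n ∈ s, G n ≤ 2 * K)
    (hG2 : ∀ n ∈ s, n ≠ m → G n ≤
      Real.pi ^ 2 * Real.exp 1 ^ 2 * N ^ 2 / (2 * K) * (1 / ((m : ℝ) - n) ^ 2)) :
    ∑ n ∈ s, G n ≤ (6 + Real.pi ^ 2 * Real.exp 1 ^ 2) * (N + K) := by
  have hN0 : 0 < N := by linarith
  have hK0 : (0 : ℝ) < K := by exact_mod_cast hK
  set D : ℕ := ⌈N / K⌉₊ with hD
  have hD1 : 1 ≤ D := Nat.ceil_pos.mpr (by positivity)
  have hD0 : (0 : ℝ) < D := by exact_mod_cast hD1
  have hDle : (D : ℝ) ≤ N / K + 1 := (Nat.ceil_lt_add_one (by positivity)).le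
  have hDge : N / K ≤ D := Nat.le_ceil _
  set c : ℝ := Real.pi ^ 2 * Real.exp 1 ^ 2 * N ^ 2 / (2 * K) with hc
  have hc0 : 0 ≤ c := by positivity
  -- split
  set s0 := s.filter (fun n => n ≤ m + D ∧ m ≤ n + D) with hs0
  set s1 := s.filter (fun n => m + D < n) with hs1
  set s2 := s.filter (fun n => n + D < m) with hs2
  have hsplit : ∑ n ∈ s, G n = ∑ n ∈ s0, G n + ∑ n ∈ s1, G n + ∑ n ∈ s2, G n := by
    rw [hs0, hs1, hs2, Finset.sum_filter, Finset.sum_filter, Finset.sum_filter,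
      ← Finset.sum_add_distrib, ← Finset.sum_add_distrib]
    refine Finset.sum_congr rfl fun n _ => ?_
    by_cases h1 : m + D < n
    · have h2 : ¬ (n + D < m) := by omega
      have h3 : ¬ (n ≤ m + D ∧ m ≤ n + D) := by omega
      simp [h1, h2, h3]
    · by_cases h2 : n + D < m
      · have h3 : ¬ (n ≤ m + D ∧ m ≤ n + D) := by omega
        simp [h1, h2, h3]
      · have h3 : (n ≤ m + D ∧ m ≤ n + D) := by omega
        simp [h1, h2, h3]
  have hb0 : ∑ n ∈ s0, G n ≤ (2 * D + 1) * (2 * K) := by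
    have hcard : s0.card ≤ 2 * D + 1 := by
      have : s0 ⊆ Icc (m - D) (m + D) := by
        intro n hn
        rw [hs0, Finset.mem_filter] at hn
        rw [Finset.mem_Icc]
        omega
      refine (Finset.card_le_card this).trans ?_
      rw [Nat.card_Icc]
      omega
    calc ∑ n ∈ s0, G n ≤ ∑ n ∈ s0, (2 * K : ℝ) :=
          Finset.sum_le_sum fun n hn => hG1 n (Finset.mem_filter.mp hn).1
      _ = s0.card * (2 * K) := by rw [Finset.sum_const, nsmul_eq_mul]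
      _ ≤ (2 * D + 1) * (2 * K) := by
          apply mul_le_mul_of_nonneg_right _ (by positivity)
          exact_mod_cast hcard
  have hb1 : ∑ n ∈ s1, G n ≤ c * (1 / D) := by
    have hT := mv_sum_inv_sq (s1.image (fun n => n - m)) D hD1 (by
      intro d hd
      rw [Finset.mem_image] at hd
      obtain ⟨n, hn, rfl⟩ := hd
      have := (Finset.mem_filter.mp hn).2
      omega)
    rw [Finset.sum_image] at hT
    · calc ∑ n ∈ s1, G n ≤ ∑ n ∈ s1, c * (1 / ((n - m : ℕ) : ℝ) ^ 2) := by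
            refine Finset.sum_le_sum fun n hn => ?_
            obtain ⟨h1, h2⟩ := Finset.mem_filter.mp hn
            have h3 := hG2 n h1 (by omega)
            rw [Nat.cast_sub (by omega)]
            rwa [← neg_sub (m : ℝ) n, neg_sq]
        _ = c * ∑ n ∈ s1, 1 / ((n - m : ℕ) : ℝ) ^ 2 := by rw [Finset.mul_sum]
        _ ≤ c * (1 / D) := mul_le_mul_of_nonneg_left hT hc0
    · intro x hx y hy hxy
      have h1 := (Finset.mem_filter.mp hx).2
      have h2 := (Finset.mem_filter.mp hy).2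
      simp only at hxy
      omega
  have hb2 : ∑ n ∈ s2, G n ≤ c * (1 / D) := by
    have hT := mv_sum_inv_sq (s2.image (fun n => m - n)) D hD1 (by
      intro d hd
      rw [Finset.mem_image] at hd
      obtain ⟨n, hn, rfl⟩ := hd
      have := (Finset.mem_filter.mp hn).2
      omega)
    rw [Finset.sum_image] at hT
    · calc ∑ n ∈ s2, G n ≤ ∑ n ∈ s2, c * (1 / ((m - n : ℕ) : ℝ) ^ 2) := by
            refine Finset.sum_le_sum fun n hn => ?_
            obtain ⟨h1, h2⟩ := Finset.mem_filter.mp hn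
            have h3 := hG2 n h1 (by omega)
            rwa [Nat.cast_sub (by omega)]
        _ = c * ∑ n ∈ s2, 1 / ((m - n : ℕ) : ℝ) ^ 2 := by rw [Finset.mul_sum]
        _ ≤ c * (1 / D) := mul_le_mul_of_nonneg_left hT hc0
    · intro x hx y hy hxy
      have h1 := (Finset.mem_filter.mp hx).2
      have h2 := (Finset.mem_filter.mp hy).2
      simp only at hxy
      omega
  have hcD : c * (1 / D) ≤ Real.pi ^ 2 * Real.exp 1 ^ 2 * N / 2 := by
    have h1 : 1 / (D : ℝ) ≤ K / N := by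
      rw [div_le_div_iff₀ hD0 hN0]
      have : N / K * K = N := by field_simp
      nlinarith
    calc c * (1 / D) ≤ c * (K / N) := mul_le_mul_of_nonneg_left h1 hc0
      _ = Real.pi ^ 2 * Real.exp 1 ^ 2 * N / 2 := by
          rw [hc]
          field_simp
  have hmain : (2 * (D : ℝ) + 1) * (2 * K) ≤ 4 * N + 6 * K := by
    have h1 : (D : ℝ) * K ≤ N + K := by
      have h2 : (N / K + 1) * K = N + K := by field_simp
      calc (D : ℝ) * K ≤ (N / K + 1) * K := mul_le_mul_of_nonneg_right hDle hK0.le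
        _ = N + K := h2
    nlinarith
  rw [hsplit]
  have hP : 0 ≤ Real.pi ^ 2 * Real.exp 1 ^ 2 := by positivity
  have hPK : 0 ≤ Real.pi ^ 2 * Real.exp 1 ^ 2 * K := by positivity
  nlinarith

/-- Step 1 -/
theorem mv_local {N : ℝ} {K : ℕ} (hK : 1 ≤ K) (hN : 1 ≤ N) (s : Finset ℕ) (a : ℕ → ℂ)
    (hs : ∀ n ∈ s, N ≤ (n : ℝ) ∧ (n : ℝ) ≤ Real.exp 1 * N) :
    ∑ k ∈ FK K, ‖DP s a k‖ ^ 2 ≤
      2 * (6 + Real.pi ^ 2 * Real.exp 1 ^ 2) * ∑ n ∈ s, ‖a n‖ ^ 2 * (N + K) := by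
  have hK0 : (0 : ℝ) < K := by exact_mod_cast hK
  set B : ℝ := (6 + Real.pi ^ 2 * Real.exp 1 ^ 2) * (N + K) with hB
  -- from the plain sum to the Fejer sum
  have h1 : ∑ k ∈ FK K, ‖DP s a k‖ ^ 2 ≤ 2 * En (2 * K) s a := by
    unfold En
    rw [Finset.mul_sum]
    calc ∑ k ∈ FK K, ‖DP s a k‖ ^ 2
        ≤ ∑ k ∈ FK K, 2 * ((1 - |(k : ℝ)| / ((2 * K : ℕ) : ℝ)) * ‖DP s a k‖ ^ 2) := by
          refine Finset.sum_le_sum fun k hk => ?_
          unfold FK at hk
          rw [Finset.mem_Ioo] at hk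
          have habs : |(k : ℝ)| ≤ K := by
            have : |k| ≤ (K : ℤ) := by
              rw [abs_le]
              constructor <;> omega
            exact_mod_cast this
          have h2 : |(k : ℝ)| / ((2 * K : ℕ) : ℝ) ≤ 1 / 2 := by
            push_cast
            rw [div_le_div_iff₀ (by positivity) (by norm_num)]
            linarith
          have h3 : 0 ≤ ‖DP s a k‖ ^ 2 := by positivity
          nlinarith
      _ ≤ ∑ k ∈ FK (2 * K), 2 * ((1 - |(k : ℝ)| / ((2 * K : ℕ) : ℝ)) * ‖DP s a k‖ ^ 2) := by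
          refine Finset.sum_le_sum_of_subset_of_nonneg ?_ ?_
          · intro k hk
            unfold FK at hk ⊢
            rw [Finset.mem_Ioo] at hk ⊢
            push_cast
            constructor <;> omega
          · intro k hk _
            unfold FK at hk
            rw [Finset.mem_Ioo] at hk
            have habs : |(k : ℝ)| ≤ ((2 * K : ℕ) : ℝ) := by
              have : |k| ≤ ((2 * K : ℕ) : ℤ) := by
                rw [abs_le]
                constructor <;> omega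
              exact_mod_cast this
            have h2 : |(k : ℝ)| / ((2 * K : ℕ) : ℝ) ≤ 1 := by
              apply div_le_one_of_le₀ habs
              positivity
            have h3 : 0 ≤ ‖DP s a k‖ ^ 2 := by positivity
            have h4 : 0 ≤ 1 - |(k : ℝ)| / ((2 * K : ℕ) : ℝ) := by linarith
            positivity
  -- expand
  have h2 : En (2 * K) s a ≤ ∑ m ∈ s, ∑ n ∈ s, ‖a m‖ * ‖a n‖ *
      Fj (2 * K) (Real.log m - Real.log n) := by
    have hE := En_eq (2 * K) s a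
    have h3 : En (2 * K) s a ≤ ‖(En (2 * K) s a : ℂ)‖ := by
      rw [Complex.norm_real, Real.norm_eq_abs]
      exact le_abs_self _
    refine h3.trans ?_
    rw [hE]
    refine (norm_sum_le _ _).trans (Finset.sum_le_sum fun m _ => ?_)
    refine (norm_sum_le _ _).trans (Finset.sum_le_sum fun n _ => ?_)
    rw [norm_mul, norm_mul, RCLike.norm_conj, Complex.norm_real, Real.norm_eq_abs,
      abs_of_nonneg (Fj_nonneg _ _)]
  have h3 : ∑ m ∈ s, ∑ n ∈ s, ‖a m‖ * ‖a n‖ * Fj (2 * K) (Real.log m - Real.log n) ≤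
      ∑ m ∈ s, ‖a m‖ ^ 2 * B := by
    have hpt : ∀ m ∈ s, ∀ n ∈ s, ‖a m‖ * ‖a n‖ * Fj (2 * K) (Real.log m - Real.log n) ≤
        ‖a m‖ ^ 2 / 2 * Fj (2 * K) (Real.log m - Real.log n) +
        ‖a n‖ ^ 2 / 2 * Fj (2 * K) (Real.log m - Real.log n) := by
      intro m _ n _
      have h4 := Fj_nonneg (2 * K) (Real.log m - Real.log n)
      have h5 : ‖a m‖ * ‖a n‖ ≤ ‖a m‖ ^ 2 / 2 + ‖a n‖ ^ 2 / 2 := by
        nlinarith [sq_nonneg (‖a m‖ - ‖a n‖)]
      calc ‖a m‖ * ‖a n‖ * Fj (2 * K) (Real.log m - Real.log n)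
          ≤ (‖a m‖ ^ 2 / 2 + ‖a n‖ ^ 2 / 2) * Fj (2 * K) (Real.log m - Real.log n) :=
            mul_le_mul_of_nonneg_right h5 h4
        _ = _ := by ring
    have hrow : ∀ m ∈ s, ∑ n ∈ s, Fj (2 * K) (Real.log m - Real.log n) ≤ B := by
      intro m hm
      refine mv_row (m := m) hK hN s (fun n => Fj (2 * K) (Real.log m - Real.log n)) ?_ ?_
      · intro n _
        have := Fj_le (2 * K) (Real.log m - Real.log n)
        push_cast at this
        exact this
      · intro n hn hne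
        exact mv_Fj hK hN (hs m hm).1 (hs m hm).2 (hs n hn).1 (hs n hn).2 (Ne.symm hne)
    have hcol : ∀ n ∈ s, ∑ m ∈ s, Fj (2 * K) (Real.log m - Real.log n) ≤ B := by
      intro n hn
      refine mv_row (m := n) hK hN s (fun m => Fj (2 * K) (Real.log m - Real.log n)) ?_ ?_
      · intro m _
        have := Fj_le (2 * K) (Real.log m - Real.log n)
        push_cast at this
        exact this
      · intro m hm hne
        have := mv_Fj hK hN (hs m hm).1 (hs m hm).2 (hs n hn).1 (hs n hn).2 hne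
        rwa [← neg_sub (n : ℝ) m, neg_sq] at this
    calc ∑ m ∈ s, ∑ n ∈ s, ‖a m‖ * ‖a n‖ * Fj (2 * K) (Real.log m - Real.log n)
        ≤ ∑ m ∈ s, ∑ n ∈ s, (‖a m‖ ^ 2 / 2 * Fj (2 * K) (Real.log m - Real.log n) +
          ‖a n‖ ^ 2 / 2 * Fj (2 * K) (Real.log m - Real.log n)) :=
          Finset.sum_le_sum fun m hm => Finset.sum_le_sum fun n hn => hpt m hm n hn
      _ = ∑ m ∈ s, ‖a m‖ ^ 2 / 2 * ∑ n ∈ s, Fj (2 * K) (Real.log m - Real.log n) +
          ∑ n ∈ s, ‖a n‖ ^ 2 / 2 * ∑ m ∈ s, Fj (2 * K) (Real.log m - Real.log n) := by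
          simp only [Finset.sum_add_distrib, Finset.mul_sum]
          congr 1
          rw [Finset.sum_comm]
      _ ≤ ∑ m ∈ s, ‖a m‖ ^ 2 / 2 * B + ∑ n ∈ s, ‖a n‖ ^ 2 / 2 * B := by
          refine add_le_add ?_ ?_
          · exact Finset.sum_le_sum fun m hm =>
              mul_le_mul_of_nonneg_left (hrow m hm) (by positivity)
          · exact Finset.sum_le_sum fun n hn =>
              mul_le_mul_of_nonneg_left (hcol n hn) (by positivity)
      _ = ∑ m ∈ s, ‖a m‖ ^ 2 * B := by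
          rw [← Finset.sum_add_distrib]
          exact Finset.sum_congr rfl fun m _ => by ring
  calc ∑ k ∈ FK K, ‖DP s a k‖ ^ 2 ≤ 2 * En (2 * K) s a := h1
    _ ≤ 2 * ∑ m ∈ s, ‖a m‖ ^ 2 * B := mul_le_mul_of_nonneg_left (h2.trans h3) (by norm_num)
    _ = 2 * (6 + Real.pi ^ 2 * Real.exp 1 ^ 2) * ∑ n ∈ s, ‖a n‖ ^ 2 * (N + K) := by
        rw [Finset.mul_sum, Finset.mul_sum]
        exact Finset.sum_congr rfl fun m _ => by rw [hB]; ring

theorem mv : ∃ C : ℝ, 0 < C ∧ ∀ (s : Finset ℕ) (a : ℕ → ℂ) (N₁ N₂ : ℝ) (K : ℕ), 1 ≤ N₁ → N₁ ≤ N₂ →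
    (∀ n ∈ s, N₁ ≤ (n : ℝ) ∧ (n : ℝ) ≤ N₂) → 1 ≤ K →
    ∑ k ∈ FK K, ‖DP s a k‖ ^ 2 ≤
      C * (1 + Real.log (N₂ / N₁)) * ∑ n ∈ s, ‖a n‖ ^ 2 * ((n : ℝ) + K) := by
  refine ⟨2 * (6 + Real.pi ^ 2 * Real.exp 1 ^ 2), by positivity, ?_⟩
  intro s a N₁ N₂ K hN₁ hN₁₂ hs hK
  set C₁ : ℝ := 2 * (6 + Real.pi ^ 2 * Real.exp 1 ^ 2) with hC₁
  have hC₁0 : 0 < C₁ := by positivity
  have hK0 : (0 : ℝ) < K := by exact_mod_cast hK
  have hN0 : 0 < N₁ := by linarith
  have hlog0 : 0 ≤ Real.log (N₂ / N₁) := Real.log_nonneg (by rw [le_div_iff₀ hN0]; linarith)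
  set R : ℕ := ⌊Real.log (N₂ / N₁)⌋₊ with hR
  set g : ℕ → ℕ := fun n => ⌊Real.log n - Real.log N₁⌋₊ with hg
  have hmaps : ∀ n ∈ s, g n ∈ range (R + 1) := by
    intro n hn
    obtain ⟨h1, h2⟩ := hs n hn
    rw [Finset.mem_range, Nat.lt_succ_iff]
    apply Nat.floor_le_floor
    rw [Real.log_div (by linarith) hN0.ne']
    have : Real.log n ≤ Real.log N₂ := Real.log_le_log (by linarith) h2
    linarith
  have hpiece : ∀ j ∈ range (R + 1),
      ∑ k ∈ FK K, ‖DP (s.filter (fun n => g n = j)) a k‖ ^ 2 ≤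
        C₁ * ∑ n ∈ s.filter (fun n => g n = j), ‖a n‖ ^ 2 * ((n : ℝ) + K) := by
    intro j _
    have hex : 1 ≤ Real.exp j := Real.one_le_exp (Nat.cast_nonneg j)
    have hNj : 1 ≤ N₁ * Real.exp j := by nlinarith
    have hmem : ∀ n ∈ s.filter (fun n => g n = j), N₁ * Real.exp j ≤ (n : ℝ) ∧
        (n : ℝ) ≤ Real.exp 1 * (N₁ * Real.exp j) := by
      intro n hn
      obtain ⟨hns, hnj⟩ := Finset.mem_filter.mp hn
      obtain ⟨h1, h2⟩ := hs n hns
      have hn0 : (0 : ℝ) < n := by linarith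
      have hdiff : 0 ≤ Real.log n - Real.log N₁ := by
        have := Real.log_le_log hN0 h1
        linarith
      have h3 : (j : ℝ) ≤ Real.log n - Real.log N₁ := by
        rw [← hnj]
        exact Nat.floor_le hdiff
      have h4 : Real.log n - Real.log N₁ < j + 1 := by
        rw [← hnj]
        exact Nat.lt_floor_add_one _
      constructor
      · calc N₁ * Real.exp j = Real.exp (Real.log N₁ + j) := by
              rw [Real.exp_add, Real.exp_log hN0]
          _ ≤ Real.exp (Real.log n) := Real.exp_le_exp.mpr (by linarith)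
          _ = n := Real.exp_log hn0
      · calc (n : ℝ) = Real.exp (Real.log n) := (Real.exp_log hn0).symm
          _ ≤ Real.exp (1 + (Real.log N₁ + j)) := Real.exp_le_exp.mpr (by linarith)
          _ = Real.exp 1 * (N₁ * Real.exp j) := by
              rw [Real.exp_add, Real.exp_add, Real.exp_log hN0]
    refine (mv_local hK hNj _ a hmem).trans ?_
    refine mul_le_mul_of_nonneg_left (Finset.sum_le_sum fun n hn => ?_) hC₁0.le
    apply mul_le_mul_of_nonneg_left _ (by positivity)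
    have := (hmem n hn).1
    linarith
  have hDP : ∀ k : ℤ, DP s a k = ∑ j ∈ range (R + 1), DP (s.filter (fun n => g n = j)) a k := by
    intro k
    unfold DP
    exact (Finset.sum_fiberwise_of_maps_to hmaps _).symm
  have hCS : ∀ k : ℤ, ‖DP s a k‖ ^ 2 ≤
      (R + 1) * ∑ j ∈ range (R + 1), ‖DP (s.filter (fun n => g n = j)) a k‖ ^ 2 := by
    intro k
    rw [hDP k]
    have h1 : ‖∑ j ∈ range (R + 1), DP (s.filter (fun n => g n = j)) a k‖ ≤
        ∑ j ∈ range (R + 1), ‖DP (s.filter (fun n => g n = j)) a k‖ := norm_sum_le _ _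
    have h2 := sq_sum_le_card_mul_sum_sq (s := range (R + 1))
      (f := fun j => ‖DP (s.filter (fun n => g n = j)) a k‖)
    rw [Finset.card_range] at h2
    push_cast at h2
    exact (pow_le_pow_left₀ (norm_nonneg _) h1 2).trans h2
  have hR1 : ((R : ℝ) + 1) ≤ 1 + Real.log (N₂ / N₁) := by
    have := Nat.floor_le hlog0
    linarith
  have hS0 : 0 ≤ ∑ n ∈ s, ‖a n‖ ^ 2 * ((n : ℝ) + K) :=
    Finset.sum_nonneg fun n _ => by positivity
  calc ∑ k ∈ FK K, ‖DP s a k‖ ^ 2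
      ≤ ∑ k ∈ FK K, ((R + 1) * ∑ j ∈ range (R + 1),
          ‖DP (s.filter (fun n => g n = j)) a k‖ ^ 2) :=
        Finset.sum_le_sum fun k _ => hCS k
    _ = (R + 1) * ∑ j ∈ range (R + 1), ∑ k ∈ FK K,
          ‖DP (s.filter (fun n => g n = j)) a k‖ ^ 2 := by
        rw [← Finset.mul_sum, Finset.sum_comm]
    _ ≤ (R + 1) * ∑ j ∈ range (R + 1),
          C₁ * ∑ n ∈ s.filter (fun n => g n = j), ‖a n‖ ^ 2 * ((n : ℝ) + K) :=
        mul_le_mul_of_nonneg_left (Finset.sum_le_sum hpiece) (by positivity)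
    _ = (R + 1) * (C₁ * ∑ n ∈ s, ‖a n‖ ^ 2 * ((n : ℝ) + K)) := by
        rw [← Finset.mul_sum, Finset.sum_fiberwise_of_maps_to hmaps]
    _ ≤ (1 + Real.log (N₂ / N₁)) * (C₁ * ∑ n ∈ s, ‖a n‖ ^ 2 * ((n : ℝ) + K)) :=
        mul_le_mul_of_nonneg_right hR1 (by positivity)
    _ = C₁ * (1 + Real.log (N₂ / N₁)) * ∑ n ∈ s, ‖a n‖ ^ 2 * ((n : ℝ) + K) := by ring

end Pool.Agent.H376R2.MR
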