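import Pool.Agent.H43.G.R_seed8.H376R2.MR.Defs
import Pool.Agent.H43.G.R_seed8.H442R2.EHI.VdC

/-! Task PHAS (helper415): `∑ m^{-1+iτ}` against the integral. -/

set_option autoImplicit false

namespace Pool.Agent.H376R2.MR

open Finset MeasureTheory intervalIntegral

theorem phas_norm_er (τ x : ℝ) : ‖er τ x‖ = 1 := by
  unfold er
  exact Complex.norm_exp_ofReal_mul_I _

theorem phas_continuous_er (τ : ℝ) : Continuous (er τ) := by
  unfold er
  fun_prop

theorem phas_er_sub (τ x y : ℝ) : ‖er τ x - er τ y‖ ≤ |τ| * |x - y| := by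
  unfold er
  have h1 : Complex.exp ((τ * x : ℝ) * Complex.I) - Complex.exp ((τ * y : ℝ) * Complex.I) =
      Complex.exp ((τ * y : ℝ) * Complex.I) *
        (Complex.exp (Complex.I * ((τ * (x - y) : ℝ) : ℂ)) - 1) := by
    rw [mul_sub, ← Complex.exp_add, mul_one]
    congr 2
    push_cast
    ring
  rw [h1, norm_mul, Complex.norm_exp_ofReal_mul_I, one_mul]
  refine (Real.norm_exp_I_mul_ofReal_sub_one_le).trans ?_
  rw [Real.norm_eq_abs, abs_mul]

theorem phas_integral_er (τ x y : ℝ) (hτ : τ ≠ 0) : ‖∫ s in x..y, er τ s‖ ≤ 2 / |τ| := by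
  have hc : ((τ : ℂ) * Complex.I) ≠ 0 := by
    simp [hτ]
  have h1 : ∫ s in x..y, er τ s = ∫ s in x..y, Complex.exp ((τ : ℂ) * Complex.I * s) := by
    congr 1
    funext s
    unfold er
    congr 1
    push_cast
    ring
  rw [h1, integral_exp_mul_complex hc, norm_div]
  have h2 : ‖(τ : ℂ) * Complex.I‖ = |τ| := by simp
  rw [h2]
  have h3 : ∀ z : ℝ, ‖Complex.exp ((τ : ℂ) * Complex.I * z)‖ = 1 := by
    intro z
    have : (τ : ℂ) * Complex.I * z = ((τ * z : ℝ) : ℂ) * Complex.I := by push_cast; ring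
    rw [this]
    exact Complex.norm_exp_ofReal_mul_I _
  refine div_le_div_of_nonneg_right ?_ (abs_nonneg _)
  refine (norm_sub_le _ _).trans ?_
  rw [h3, h3]
  norm_num

theorem phas_abel (c : ℕ → ℝ) (g : ℕ → ℂ) (B : ℝ) (L : ℕ) (hc0 : ∀ n, 0 ≤ c n)
    (hc : ∀ n, c (n + 1) ≤ c n) (hB : ∀ K, K ≤ L → ‖∑ n ∈ range K, g n‖ ≤ B) :
    ‖∑ n ∈ range L, (c n : ℂ) * g n‖ ≤ c 0 * B := by
  have key : ∀ K, ∑ n ∈ range K, (c n : ℂ) * g n =
      (∑ n ∈ range K, ((c n - c (n + 1) : ℝ) : ℂ) * ∑ i ∈ range (n + 1), g i)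
        + (c K : ℂ) * ∑ i ∈ range K, g i := by
    intro K
    induction K with
    | zero => simp
    | succ K ih =>
      rw [sum_range_succ, ih, sum_range_succ (fun n => ((c n - c (n + 1) : ℝ) : ℂ) * ∑ i ∈ range (n + 1), g i),
        sum_range_succ (fun i => g i)]
      push_cast
      ring
  rw [key]
  refine (norm_add_le _ _).trans ?_
  have h1 : ‖∑ n ∈ range L, ((c n - c (n + 1) : ℝ) : ℂ) * ∑ i ∈ range (n + 1), g i‖ ≤
      ∑ n ∈ range L, (c n - c (n + 1)) * B := by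
    refine (norm_sum_le _ _).trans (sum_le_sum fun n hn => ?_)
    rw [norm_mul, Complex.norm_real, Real.norm_eq_abs, abs_of_nonneg (sub_nonneg.2 (hc n))]
    exact mul_le_mul_of_nonneg_left (hB _ (by have := mem_range.1 hn; omega)) (sub_nonneg.2 (hc n))
  have h2 : ‖(c L : ℂ) * ∑ i ∈ range L, g i‖ ≤ c L * B := by
    rw [norm_mul, Complex.norm_real, Real.norm_eq_abs, abs_of_nonneg (hc0 L)]
    exact mul_le_mul_of_nonneg_left (hB _ le_rfl) (hc0 L)
  rw [← sum_mul, sum_range_sub'] at h1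
  linarith

/-- one block of the exponential sum -/
theorem phas_block (M : ℕ) : ∃ η C : ℝ, 0 < η ∧ 0 < C ∧ ∀ (a u L : ℕ) (τ : ℝ), 1 ≤ a → a ≤ u →
    L ≤ a → u + L ≤ 3 * a → 2 * Real.pi * (a : ℝ) ^ (1 / 2 : ℝ) ≤ |τ| → |τ| ≤ (a : ℝ) ^ M →
    ‖∑ n ∈ range L, er τ (Real.log ((u + n : ℕ) : ℝ)) / (((u + n : ℕ) : ℝ) : ℂ)‖ ≤
      C * (a : ℝ) ^ (-η) := by
  obtain ⟨η, hη, C, hC, h⟩ := Pool.Agent.H442R2.EHI.vdc_log M
  refine ⟨η, C, hη, hC, ?_⟩
  intro a u L τ ha hau hLa huL h1 h2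
  have ha' : (1 : ℝ) ≤ a := by exact_mod_cast ha
  have ha0 : (0 : ℝ) < a := by linarith
  have hu' : (a : ℝ) ≤ u := by exact_mod_cast hau
  have hpi := Real.pi_pos
  have h2pi : 0 < 2 * Real.pi := by positivity
  have hξ1 : (a : ℝ) ^ (1 / 2 : ℝ) ≤ |τ / (2 * Real.pi)| := by
    rw [abs_div, abs_of_pos h2pi, le_div_iff₀ h2pi]
    linarith
  have hξ2 : |τ / (2 * Real.pi)| ≤ (a : ℝ) ^ M := by
    rw [abs_div, abs_of_pos h2pi]
    refine (div_le_self (abs_nonneg _) ?_).trans h2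
    nlinarith [Real.pi_gt_three]
  have hpart : ∀ K, K ≤ L → ‖∑ n ∈ range K, er τ (Real.log ((u + n : ℕ) : ℝ))‖ ≤
      C * (a : ℝ) ^ (1 - η) := by
    intro K hK
    have h3 := h a K u (τ / (2 * Real.pi)) ha hu' (hK.trans hLa)
      (by exact_mod_cast (by omega : u + K ≤ 3 * a)) hξ1 hξ2
    refine le_trans (le_of_eq ?_) h3
    congr 1
    refine sum_congr rfl fun n _ => ?_
    unfold er Pool.Agent.H469R2.NK.e
    congr 1
    push_cast
    field_simp
  have h4 := phas_abel (fun n => 1 / ((u + n : ℕ) : ℝ)) (fun n => er τ (Real.log ((u + n : ℕ) : ℝ)))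
    (C * (a : ℝ) ^ (1 - η)) L (fun n => by positivity) (fun n => by
      have : (0 : ℝ) < ((u + n : ℕ) : ℝ) := by
        have : 0 < u + n := by omega
        exact_mod_cast this
      apply one_div_le_one_div_of_le this
      push_cast
      linarith) hpart
  have h5 : ∑ n ∈ range L, er τ (Real.log ((u + n : ℕ) : ℝ)) / (((u + n : ℕ) : ℝ) : ℂ) =
      ∑ n ∈ range L, ((1 / ((u + n : ℕ) : ℝ) : ℝ) : ℂ) * er τ (Real.log ((u + n : ℕ) : ℝ)) := by
    refine sum_congr rfl fun n _ => ?_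
    push_cast
    rw [one_div, div_eq_inv_mul]
  rw [h5]
  refine h4.trans ?_
  have h6 : 1 / ((u + 0 : ℕ) : ℝ) ≤ 1 / a := by
    apply one_div_le_one_div_of_le ha0
    simpa using hu'
  have h7 : 0 ≤ C * (a : ℝ) ^ (1 - η) := by positivity
  refine (mul_le_mul_of_nonneg_right h6 h7).trans (le_of_eq ?_)
  rw [Real.rpow_sub ha0, Real.rpow_one, Real.rpow_neg ha0.le]
  field_simp

/-- small frequencies: compare with the integral termwise -/
theorem phas_small (a b : ℕ) (τ : ℝ) (ha : 1 ≤ a) (hab : a ≤ b) (hb : b ≤ 3 * a) :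
    ‖(∑ m ∈ Ico a b, er τ (Real.log m) / (m : ℂ)) - ∫ s in (Real.log a)..(Real.log b), er τ s‖ ≤
      2 * (1 + |τ|) / a := by
  have hint : ∫ s in (Real.log a)..(Real.log b), er τ s =
      ∑ m ∈ Ico a b, ∫ s in (Real.log m)..(Real.log ((m + 1 : ℕ) : ℝ)), er τ s := by
    rw [sum_integral_adjacent_intervals_Ico (a := fun m : ℕ => Real.log (m : ℝ)) hab]
    intro k _
    exact (phas_continuous_er τ).intervalIntegrable _ _
  rw [hint, ← sum_sub_distrib]
  have ha0 : (0 : ℝ) < a := by exact_mod_cast ha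
  have hterm : ∀ m ∈ Ico a b, ‖er τ (Real.log m) / (m : ℂ) -
      ∫ s in (Real.log m)..(Real.log ((m + 1 : ℕ) : ℝ)), er τ s‖ ≤ (1 + |τ|) / a ^ 2 := by
    intro m hm
    rw [mem_Ico] at hm
    have hm0 : (0 : ℝ) < m := by
      have : 0 < m := by omega
      exact_mod_cast this
    have ham : (a : ℝ) ≤ m := by exact_mod_cast hm.1
    have hlog1 : Real.log ((m + 1 : ℕ) : ℝ) - Real.log m ≤ 1 / m := by
      rw [← Real.log_div (by positivity) hm0.ne']
      have h1 := Real.log_le_sub_one_of_pos (show (0 : ℝ) < ((m + 1 : ℕ) : ℝ) / m by positivity)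
      refine h1.trans (le_of_eq ?_)
      push_cast
      field_simp
      ring
    have hlog2 : 1 / (m : ℝ) - 1 / m ^ 2 ≤ Real.log ((m + 1 : ℕ) : ℝ) - Real.log m := by
      rw [← Real.log_div (by positivity) hm0.ne']
      have h1 := Real.one_sub_inv_le_log_of_pos (show (0 : ℝ) < ((m + 1 : ℕ) : ℝ) / m by positivity)
      refine le_trans ?_ h1
      rw [inv_div]
      have h2 : 1 - (m : ℝ) / ((m + 1 : ℕ) : ℝ) = 1 / m - 1 / (m * (m + 1)) := by
        push_cast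
        field_simp
        ring
      rw [h2]
      have h3 : 1 / ((m : ℝ) * (m + 1)) ≤ 1 / m ^ 2 := by
        apply one_div_le_one_div_of_le (by positivity)
        nlinarith
      linarith
    have hle : Real.log m ≤ Real.log ((m + 1 : ℕ) : ℝ) := by
      apply Real.log_le_log hm0
      push_cast
      linarith
    have hconst : ∫ s in (Real.log m)..(Real.log ((m + 1 : ℕ) : ℝ)), er τ (Real.log m) =
        ((Real.log ((m + 1 : ℕ) : ℝ) - Real.log m : ℝ) : ℂ) * er τ (Real.log m) := by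
      rw [intervalIntegral.integral_const, Complex.real_smul]
    have hsplit : er τ (Real.log m) / (m : ℂ) -
        ∫ s in (Real.log m)..(Real.log ((m + 1 : ℕ) : ℝ)), er τ s =
        (((1 / m - (Real.log ((m + 1 : ℕ) : ℝ) - Real.log m) : ℝ)) : ℂ) * er τ (Real.log m)
        - ∫ s in (Real.log m)..(Real.log ((m + 1 : ℕ) : ℝ)), (er τ s - er τ (Real.log m)) := by
      rw [intervalIntegral.integral_sub ((phas_continuous_er τ).intervalIntegrable _ _)
        (continuous_const.intervalIntegrable _ _), hconst]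
      push_cast
      rw [div_eq_inv_mul]
      ring
    rw [hsplit]
    refine (norm_sub_le _ _).trans ?_
    have h1 : ‖(((1 / m - (Real.log ((m + 1 : ℕ) : ℝ) - Real.log m) : ℝ)) : ℂ) *
        er τ (Real.log m)‖ ≤ 1 / m ^ 2 := by
      rw [norm_mul, phas_norm_er, mul_one, Complex.norm_real, Real.norm_eq_abs, abs_le]
      constructor
      · have : 0 ≤ 1 / (m : ℝ) ^ 2 := by positivity
        linarith
      · linarith
    have h2 : ‖∫ s in (Real.log m)..(Real.log ((m + 1 : ℕ) : ℝ)), (er τ s - er τ (Real.log m))‖ ≤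
        (|τ| * (1 / m)) * |Real.log ((m + 1 : ℕ) : ℝ) - Real.log m| := by
      apply intervalIntegral.norm_integral_le_of_norm_le_const
      intro s hs
      rw [Set.uIoc_of_le hle] at hs
      refine (phas_er_sub τ _ _).trans ?_
      refine mul_le_mul_of_nonneg_left ?_ (abs_nonneg _)
      rw [abs_of_nonneg (by linarith [hs.1])]
      linarith [hs.2]
    rw [abs_of_nonneg (sub_nonneg.2 hle)] at h2
    have h3 : (|τ| * (1 / m)) * (Real.log ((m + 1 : ℕ) : ℝ) - Real.log m) ≤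
        (|τ| * (1 / m)) * (1 / m) := mul_le_mul_of_nonneg_left hlog1 (by positivity)
    have h4 : 1 / (m : ℝ) ^ 2 + (|τ| * (1 / m)) * (1 / m) = (1 + |τ|) / m ^ 2 := by
      field_simp
    have h5 : (1 + |τ|) / (m : ℝ) ^ 2 ≤ (1 + |τ|) / a ^ 2 := by gcongr
    linarith
  refine (norm_sum_le _ _).trans ((sum_le_sum hterm).trans ?_)
  rw [sum_const, Nat.card_Ico, nsmul_eq_mul]
  have h6 : ((b - a : ℕ) : ℝ) ≤ 2 * a := by
    have : b - a ≤ 2 * a := by omega
    exact_mod_cast this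
  have h7 : 0 ≤ (1 + |τ|) / (a : ℝ) ^ 2 := by positivity
  refine (mul_le_mul_of_nonneg_right h6 h7).trans (le_of_eq ?_)
  field_simp

theorem phase_sum (M : ℕ) : ∃ η C : ℝ, 0 < η ∧ η ≤ 1 / 2 ∧ 0 < C ∧ ∀ (a b : ℕ) (τ : ℝ), 1 ≤ a → a ≤ b →
    b ≤ 3 * a → |τ| ≤ (a : ℝ) ^ M →
    ‖(∑ m ∈ Ico a b, er τ (Real.log m) / (m : ℂ)) - ∫ s in (Real.log a)..(Real.log b), er τ s‖ ≤
      C * (a : ℝ) ^ (-η) := by
  obtain ⟨η₁, C₁, hη₁, hC₁, hblock⟩ := phas_block M
  have hpi := Real.pi_pos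
  refine ⟨min η₁ (1 / 2), 2 * C₁ + 2 * (1 + 2 * Real.pi) + 1, by positivity, min_le_right _ _,
    by positivity, ?_⟩
  intro a b τ ha hab hb hτ
  have ha' : (1 : ℝ) ≤ a := by exact_mod_cast ha
  have ha0 : (0 : ℝ) < a := by linarith
  set η := min η₁ (1 / 2) with hη
  have hpow1 : (a : ℝ) ^ (-η₁) ≤ (a : ℝ) ^ (-η) :=
    Real.rpow_le_rpow_of_exponent_le ha' (by rw [hη]; linarith [min_le_left η₁ (1 / 2)])
  have hpow2 : (a : ℝ) ^ (-(1 / 2) : ℝ) ≤ (a : ℝ) ^ (-η) :=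
    Real.rpow_le_rpow_of_exponent_le ha' (by rw [hη]; linarith [min_le_right η₁ (1 / 2)])
  have hpos : 0 < (a : ℝ) ^ (-η) := by positivity
  have hpos2 : 0 < (a : ℝ) ^ (-(1 / 2) : ℝ) := by positivity
  by_cases hc : |τ| ≤ 2 * Real.pi * (a : ℝ) ^ (1 / 2 : ℝ)
  · refine (phas_small a b τ ha hab hb).trans ?_
    have h1 : (1 : ℝ) ≤ (a : ℝ) ^ (1 / 2 : ℝ) := Real.one_le_rpow ha' (by norm_num)
    have h2 : 1 + |τ| ≤ (1 + 2 * Real.pi) * (a : ℝ) ^ (1 / 2 : ℝ) := by nlinarith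
    have h3 : (a : ℝ) ^ (1 / 2 : ℝ) / a = (a : ℝ) ^ (-(1 / 2) : ℝ) := by
      rw [show (-(1 / 2) : ℝ) = 1 / 2 - 1 by norm_num, Real.rpow_sub ha0, Real.rpow_one]
    calc 2 * (1 + |τ|) / a ≤ 2 * ((1 + 2 * Real.pi) * (a : ℝ) ^ (1 / 2 : ℝ)) / a := by gcongr
      _ = 2 * (1 + 2 * Real.pi) * ((a : ℝ) ^ (1 / 2 : ℝ) / a) := by ring
      _ = 2 * (1 + 2 * Real.pi) * (a : ℝ) ^ (-(1 / 2) : ℝ) := by rw [h3]
      _ ≤ 2 * (1 + 2 * Real.pi) * (a : ℝ) ^ (-η) := by gcongr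
      _ ≤ _ := by
        apply mul_le_mul_of_nonneg_right _ hpos.le
        linarith
  · push Not at hc
    have hτ0 : τ ≠ 0 := by
      rintro rfl
      rw [abs_zero] at hc
      have : 0 < 2 * Real.pi * (a : ℝ) ^ (1 / 2 : ℝ) := by positivity
      linarith
    -- integral
    have hI : ‖∫ s in (Real.log a)..(Real.log b), er τ s‖ ≤ (a : ℝ) ^ (-(1 / 2) : ℝ) := by
      refine (phas_integral_er τ _ _ hτ0).trans ?_
      have h1 : 2 / |τ| ≤ 2 / (2 * Real.pi * (a : ℝ) ^ (1 / 2 : ℝ)) := by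
        gcongr
      refine h1.trans ?_
      rw [Real.rpow_neg ha0.le, div_le_iff₀ (by positivity)]
      have h2 : ((a : ℝ) ^ (1 / 2 : ℝ))⁻¹ * (2 * Real.pi * (a : ℝ) ^ (1 / 2 : ℝ)) = 2 * Real.pi := by
        field_simp
      rw [h2]
      linarith [Real.pi_gt_three]
    -- sum
    have hS : ‖∑ m ∈ Ico a b, er τ (Real.log m) / (m : ℂ)‖ ≤ 2 * C₁ * (a : ℝ) ^ (-η₁) := by
      have hshift : ∀ x y : ℕ, x ≤ y → ∑ m ∈ Ico x y, er τ (Real.log m) / (m : ℂ) =
          ∑ n ∈ range (y - x), er τ (Real.log ((x + n : ℕ) : ℝ)) / (((x + n : ℕ) : ℝ) : ℂ) := by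
        intro x y hxy
        rw [sum_Ico_eq_sum_range]
        refine sum_congr rfl fun n _ => ?_
        push_cast
        rfl
      rcases le_or_gt b (2 * a) with h2a | h2a
      · rw [hshift a b hab]
        have h1 := hblock a a (b - a) τ ha le_rfl (by omega) (by omega) hc.le hτ
        refine h1.trans ?_
        have : 0 ≤ C₁ * (a : ℝ) ^ (-η₁) := by positivity
        linarith
      · rw [← sum_Ico_consecutive _ (show a ≤ 2 * a by omega) h2a.le, hshift a (2 * a) (by omega),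
          hshift (2 * a) b h2a.le]
        have h1 := hblock a a (2 * a - a) τ ha le_rfl (by omega) (by omega) hc.le hτ
        have h2 := hblock a (2 * a) (b - 2 * a) τ ha (by omega) (by omega) (by omega) hc.le hτ
        refine (norm_add_le _ _).trans ?_
        linarith
    refine (norm_sub_le _ _).trans ?_
    have h3 : 2 * C₁ * (a : ℝ) ^ (-η₁) ≤ 2 * C₁ * (a : ℝ) ^ (-η) := by gcongr
    have h4 : 0 ≤ 2 * (1 + 2 * Real.pi) * (a : ℝ) ^ (-η) := by positivity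
    have h5 : (2 * C₁ + 2 * (1 + 2 * Real.pi) + 1) * (a : ℝ) ^ (-η) =
        2 * C₁ * (a : ℝ) ^ (-η) + 2 * (1 + 2 * Real.pi) * (a : ℝ) ^ (-η) + (a : ℝ) ^ (-η) := by ring
    rw [h5]
    linarith

end Pool.Agent.H376R2.MR
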