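import Pool.Agent.H43.G.R_seed8.H376R2.MR.Defs
import Pool.Agent.H43.G.R_seed8.H376R2.MR.Phas

set_option autoImplicit false

namespace Pool.Agent.H376R2.MR
open Finset Filter

theorem kern_er_cont (τ : ℝ) : Continuous (fun s : ℝ => er τ s) := by
  unfold er
  fun_prop

theorem kern_er_norm (τ s : ℝ) : ‖er τ s‖ = 1 := by
  unfold er
  exact Complex.norm_exp_ofReal_mul_I _

theorem kern_ch_er (k : ℤ) (x : ℝ) : ch k x = er (-(k : ℝ)) x := by
  unfold ch er
  congr 1
  push_cast
  ring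

theorem kern_er_add (τ x y : ℝ) : er τ (x + y) = er τ x * er τ y := by
  unfold er
  rw [← Complex.exp_add]
  congr 1
  push_cast
  ring

/-- the discrepancy between the sum and the integral -/
noncomputable def kernT (τ : ℝ) (a b : ℕ) : ℂ :=
  (∑ m ∈ Ico a b, er τ (Real.log m) / (m : ℂ)) - ∫ s in (Real.log a)..(Real.log b), er τ s

theorem kernT_add (τ : ℝ) {a b c : ℕ} (hab : a ≤ b) (hbc : b ≤ c) :
    kernT τ a c = kernT τ a b + kernT τ b c := by
  unfold kernT
  rw [← Finset.sum_Ico_consecutive _ hab hbc,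
    ← intervalIntegral.integral_add_adjacent_intervals (b := Real.log b)
      ((kern_er_cont τ).intervalIntegrable _ _) ((kern_er_cont τ).intervalIntegrable _ _)]
  ring

theorem kern_blocks (M : ℕ) (η C : ℝ) (hη : 0 < η) (hC : 0 < C)
    (hph : ∀ (a b : ℕ) (τ : ℝ), 1 ≤ a → a ≤ b → b ≤ 3 * a → |τ| ≤ (a : ℝ) ^ M →
      ‖kernT τ a b‖ ≤ C * (a : ℝ) ^ (-η)) (k : ℕ) :
    ∀ (a b : ℕ) (τ : ℝ), 1 ≤ a → a ≤ b → b ≤ 3 ^ k * a → |τ| ≤ (a : ℝ) ^ M →
      ‖kernT τ a b‖ ≤ k * C * (a : ℝ) ^ (-η) := by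
  induction k with
  | zero =>
    intro a b τ h1 hab hb _
    have : b = a := by omega
    subst this
    simp [kernT]
  | succ k ih =>
    intro a b τ h1 hab hb hτ
    have hp : (0 : ℝ) ≤ (a : ℝ) ^ (-η) := by positivity
    by_cases h3 : b ≤ 3 * a
    · refine (hph a b τ h1 hab h3 hτ).trans ?_
      push_cast
      nlinarith [mul_nonneg (mul_nonneg (Nat.cast_nonneg (α := ℝ) k) hC.le) hp]
    · push Not at h3
      rw [kernT_add τ (show a ≤ 3 * a by omega) h3.le]
      have e1 := hph a (3 * a) τ h1 (by omega) le_rfl hτ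
      have e2 := ih (3 * a) b τ (by omega) h3.le (by rw [pow_succ] at hb; nlinarith) (by
        refine hτ.trans ?_
        have : (a : ℝ) ≤ ((3 * a : ℕ) : ℝ) := by
          have : a ≤ 3 * a := by omega
          exact_mod_cast this
        gcongr)
      have e3 : ((3 * a : ℕ) : ℝ) ^ (-η) ≤ (a : ℝ) ^ (-η) := by
        refine Real.rpow_le_rpow_of_nonpos (by exact_mod_cast h1) ?_ (by linarith)
        have : a ≤ 3 * a := by omega
        exact_mod_cast this
      calc ‖kernT τ a (3 * a) + kernT τ (3 * a) b‖ ≤ ‖kernT τ a (3 * a)‖ + ‖kernT τ (3 * a) b‖ :=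
            norm_add_le _ _
        _ ≤ C * (a : ℝ) ^ (-η) + k * C * ((3 * a : ℕ) : ℝ) ^ (-η) := add_le_add e1 e2
        _ ≤ C * (a : ℝ) ^ (-η) + k * C * (a : ℝ) ^ (-η) := by gcongr
        _ = ((k + 1 : ℕ) : ℝ) * C * (a : ℝ) ^ (-η) := by push_cast; ring

/-- the sum over a window of logarithmic length `2c` against the integral -/
theorem kern_window (η C : ℝ) (hη : 0 < η) (hη1 : η ≤ 1 / 2) (hC : 0 < C)
    (hph : ∀ (a b : ℕ) (τ : ℝ), 1 ≤ a → a ≤ b → b ≤ 3 * a → |τ| ≤ (a : ℝ) ^ 3 →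
      ‖kernT τ a b‖ ≤ C * (a : ℝ) ^ (-η)) (Z : ℝ) (hZ : Real.exp 9 ≤ Z) (τ : ℤ)
    (hτ : |(τ : ℝ)| ≤ Z ^ 2) (c : ℝ) (hc2 : 2 ≤ c) (hc3 : c ≤ 3) :
    ‖(∑ n ∈ Icc 1 ⌊Real.exp 3 * Z⌋₊,
        (if |Real.log n - Real.log Z| ≤ c then ch τ (Real.log n) / (n : ℂ) else 0)) -
      ch τ (Real.log Z) * ∫ s in (-c)..c, ch τ s‖ ≤ (7 * C * 27 + 28) * Z ^ (-η) := by
  have hZ1 : 1 ≤ Z := le_trans (Real.one_le_exp (by norm_num)) hZ
  have hZ0 : 0 < Z := by linarith
  have he3 : Real.exp 3 ≤ 27 := by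
    have h1 : Real.exp 3 = Real.exp 1 ^ 3 := by
      rw [← Real.exp_nat_mul]; norm_num
    rw [h1]
    have h2 : Real.exp 1 ≤ 3 := by
      have := Real.exp_one_lt_d9
      linarith
    calc Real.exp 1 ^ 3 ≤ 3 ^ 3 := by gcongr
      _ = 27 := by norm_num
  have hec : Real.exp c ≤ 27 := (Real.exp_le_exp.2 hc3).trans he3
  have hec' : 1 / 27 ≤ Real.exp (-c) := by
    rw [Real.exp_neg, one_div]
    exact inv_anti₀ (Real.exp_pos c) hec
  have hZe : (0 : ℝ) < Z * Real.exp (-c) := by positivity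
  have hZe1 : 1 ≤ Z * Real.exp (-c) := by
    have h1 : Real.exp 9 * Real.exp (-c) ≤ Z * Real.exp (-c) := by gcongr
    have h2 : 1 ≤ Real.exp 9 * Real.exp (-c) := by
      rw [← Real.exp_add]
      exact Real.one_le_exp (by linarith)
    linarith
  obtain ⟨a, ha⟩ : ∃ a : ℕ, a = ⌈Z * Real.exp (-c)⌉₊ := ⟨_, rfl⟩
  obtain ⟨b, hb⟩ : ∃ b : ℕ, b = ⌊Z * Real.exp c⌋₊ + 1 := ⟨_, rfl⟩
  have ha1 : Z * Real.exp (-c) ≤ a := by rw [ha]; exact Nat.le_ceil _
  have ha2 : (a : ℝ) < Z * Real.exp (-c) + 1 := by rw [ha]; exact Nat.ceil_lt_add_one hZe.le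
  have hb1 : Z * Real.exp c < b := by rw [hb]; push_cast; exact Nat.lt_floor_add_one _
  have hb2 : (b : ℝ) ≤ Z * Real.exp c + 1 := by
    rw [hb]; push_cast
    have := Nat.floor_le (show 0 ≤ Z * Real.exp c by positivity)
    linarith
  have ha0 : 1 ≤ a := by
    have : (1 : ℝ) ≤ a := by linarith
    exact_mod_cast this
  have hexp : Real.exp (-c) ≤ Real.exp c := Real.exp_le_exp.2 (by linarith)
  have hab : a ≤ b := by
    have h1 : Z * Real.exp (-c) ≤ Z * Real.exp c := by gcongr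
    have h2 : (a : ℝ) < b + 1 := by linarith
    have h3 : a < b + 1 := by exact_mod_cast h2
    omega
  have hb7 : b ≤ 3 ^ 7 * a := by
    have h1 : (b : ℝ) ≤ 3 ^ 7 * a := by
      have h2 : Z * (1 / 27) ≤ a := by
        calc Z * (1 / 27) ≤ Z * Real.exp (-c) := by gcongr
          _ ≤ a := ha1
      have h3 : (b : ℝ) ≤ Z * 27 + 1 := by
        calc (b : ℝ) ≤ Z * Real.exp c + 1 := hb2
          _ ≤ Z * 27 + 1 := by gcongr
      have h4 : (1 : ℝ) ≤ a := by exact_mod_cast ha0
      norm_num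
      linarith
    exact_mod_cast h1
  have hτa : |(-(τ : ℝ))| ≤ (a : ℝ) ^ 3 := by
    rw [abs_neg]
    calc |(τ : ℝ)| ≤ Z ^ 2 := hτ
      _ = Real.exp 9 * (Z ^ 2 * Real.exp (-9)) := by
          rw [show Real.exp 9 * (Z ^ 2 * Real.exp (-9)) = Z ^ 2 * (Real.exp 9 * Real.exp (-9)) by
            ring, ← Real.exp_add]
          simp
      _ ≤ Z * (Z ^ 2 * Real.exp (-9)) := by gcongr
      _ = (Z * Real.exp (-3)) ^ 3 := by
          rw [mul_pow, ← Real.exp_nat_mul]
          norm_num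
          ring
      _ ≤ (Z * Real.exp (-c)) ^ 3 := by
          have : Real.exp (-3) ≤ Real.exp (-c) := Real.exp_le_exp.2 (by linarith)
          gcongr
      _ ≤ (a : ℝ) ^ 3 := by gcongr
  have hT := kern_blocks 3 η C hη hC hph 7 a b (-(τ : ℝ)) ha0 hab hb7 hτa
  -- the sum
  have hsum : (∑ n ∈ Icc 1 ⌊Real.exp 3 * Z⌋₊,
        (if |Real.log n - Real.log Z| ≤ c then ch τ (Real.log n) / (n : ℂ) else 0)) =
      ∑ n ∈ Ico a b, er (-(τ : ℝ)) (Real.log n) / (n : ℂ) := by
    rw [← Finset.sum_filter]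
    have hset : (Icc 1 ⌊Real.exp 3 * Z⌋₊).filter (fun n : ℕ => |Real.log n - Real.log Z| ≤ c) =
        Ico a b := by
      ext n
      rw [Finset.mem_filter, Finset.mem_Icc, Finset.mem_Ico]
      constructor
      · rintro ⟨⟨h1, h2⟩, h3⟩
        have hn0 : (0 : ℝ) < n := by exact_mod_cast h1
        rw [abs_le] at h3
        constructor
        · rw [ha]
          refine Nat.ceil_le.2 ?_
          have h4 : Real.log Z + (-c) ≤ Real.log n := by linarith [h3.1]
          calc Z * Real.exp (-c) = Real.exp (Real.log Z + (-c)) := by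
                rw [Real.exp_add, Real.exp_log hZ0]
            _ ≤ Real.exp (Real.log n) := Real.exp_le_exp.2 h4
            _ = n := Real.exp_log hn0
        · rw [hb]
          refine Nat.lt_succ_of_le (Nat.le_floor ?_)
          have h4 : Real.log n ≤ Real.log Z + c := by linarith [h3.2]
          calc (n : ℝ) = Real.exp (Real.log n) := (Real.exp_log hn0).symm
            _ ≤ Real.exp (Real.log Z + c) := Real.exp_le_exp.2 h4
            _ = Z * Real.exp c := by rw [Real.exp_add, Real.exp_log hZ0]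
      · rintro ⟨h1, h2⟩
        have hn1 : 1 ≤ n := le_trans ha0 h1
        have hn0 : (0 : ℝ) < n := by exact_mod_cast hn1
        have h3 : n ≤ ⌊Z * Real.exp c⌋₊ := by omega
        have h4 : (n : ℝ) ≤ Z * Real.exp c := by
          have := Nat.floor_le (show 0 ≤ Z * Real.exp c by positivity)
          have h5 : (n : ℝ) ≤ (⌊Z * Real.exp c⌋₊ : ℝ) := by exact_mod_cast h3
          linarith
        refine ⟨⟨hn1, Nat.le_floor ?_⟩, ?_⟩
        · calc (n : ℝ) ≤ Z * Real.exp c := h4
            _ ≤ Z * Real.exp 3 := by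
                have := Real.exp_le_exp.2 hc3
                gcongr
            _ = Real.exp 3 * Z := by ring
        · rw [abs_le]
          constructor
          · have h5 : Z * Real.exp (-c) ≤ n := ha1.trans (by exact_mod_cast h1)
            have h6 := Real.log_le_log hZe h5
            rw [Real.log_mul hZ0.ne' (Real.exp_pos _).ne', Real.log_exp] at h6
            linarith
          · have h6 := Real.log_le_log hn0 h4
            rw [Real.log_mul hZ0.ne' (Real.exp_pos _).ne', Real.log_exp] at h6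
            linarith
    rw [hset]
    exact Finset.sum_congr rfl fun n _ => by rw [kern_ch_er]
  -- the integral
  have hint : ch τ (Real.log Z) * ∫ s in (-c)..c, ch τ s =
      ∫ s in (Real.log Z - c)..(Real.log Z + c), er (-(τ : ℝ)) s := by
    have h1 : ∫ s in (-c)..c, er (-(τ : ℝ)) (s + Real.log Z) =
        ∫ s in (-c + Real.log Z)..(c + Real.log Z), er (-(τ : ℝ)) s :=
      intervalIntegral.integral_comp_add_right (fun s => er (-(τ : ℝ)) s) (Real.log Z)
    rw [show Real.log Z - c = -c + Real.log Z by ring, show Real.log Z + c = c + Real.log Z by ring,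
      ← h1, ← intervalIntegral.integral_const_mul]
    refine intervalIntegral.integral_congr fun s _ => ?_
    show ch τ (Real.log Z) * ch τ s = er (-(τ : ℝ)) (s + Real.log Z)
    rw [kern_ch_er, kern_ch_er, kern_er_add]
    ring
  have hii : ∀ x y : ℝ, IntervalIntegrable (fun s => er (-(τ : ℝ)) s) MeasureTheory.volume x y :=
    fun x y => (kern_er_cont _).intervalIntegrable _ _
  have hdiff : (∫ s in (Real.log a)..(Real.log b), er (-(τ : ℝ)) s) -
      ∫ s in (Real.log Z - c)..(Real.log Z + c), er (-(τ : ℝ)) s =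
      (∫ s in (Real.log a)..(Real.log Z - c), er (-(τ : ℝ)) s) +
      ∫ s in (Real.log Z + c)..(Real.log b), er (-(τ : ℝ)) s := by
    rw [← intervalIntegral.integral_add_adjacent_intervals (hii (Real.log a) (Real.log Z - c))
      (hii (Real.log Z - c) (Real.log b)),
      ← intervalIntegral.integral_add_adjacent_intervals (hii (Real.log Z - c) (Real.log Z + c))
      (hii (Real.log Z + c) (Real.log b))]
    ring
  have hn1 : ‖∫ s in (Real.log a)..(Real.log Z - c), er (-(τ : ℝ)) s‖ ≤ 27 / Z := by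
    refine (intervalIntegral.norm_integral_le_of_norm_le_const
      (C := 1) fun s _ => (kern_er_norm _ s).le).trans ?_
    rw [one_mul]
    have h1 : Real.log Z - c ≤ Real.log a := by
      have h6 := Real.log_le_log hZe ha1
      rw [Real.log_mul hZ0.ne' (Real.exp_pos _).ne', Real.log_exp] at h6
      linarith
    have h2 : Real.log a - (Real.log Z - c) ≤ 27 / Z := by
      have ha0' : (0 : ℝ) < a := by exact_mod_cast ha0
      have h3 : Real.log a - (Real.log Z - c) = Real.log (a / (Z * Real.exp (-c))) := by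
        rw [Real.log_div ha0'.ne' hZe.ne', Real.log_mul hZ0.ne' (Real.exp_pos _).ne', Real.log_exp]
        ring
      rw [h3]
      refine (Real.log_le_sub_one_of_pos (by positivity)).trans ?_
      rw [div_sub_one hZe.ne', div_le_div_iff₀ hZe hZ0]
      have h5 : (a : ℝ) - Z * Real.exp (-c) ≤ 1 := by linarith
      calc ((a : ℝ) - Z * Real.exp (-c)) * Z ≤ 1 * Z := by gcongr
        _ = 27 * (Z * (1 / 27)) := by ring
        _ ≤ 27 * (Z * Real.exp (-c)) := by gcongr
    rw [abs_le]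
    constructor
    · linarith
    · have : (0 : ℝ) ≤ 27 / Z := by positivity
      linarith
  have hn2 : ‖∫ s in (Real.log Z + c)..(Real.log b), er (-(τ : ℝ)) s‖ ≤ 1 / Z := by
    refine (intervalIntegral.norm_integral_le_of_norm_le_const
      (C := 1) fun s _ => (kern_er_norm _ s).le).trans ?_
    rw [one_mul]
    have hZc : 0 < Z * Real.exp c := by positivity
    have hZcZ : Z ≤ Z * Real.exp c := by
      have : 1 ≤ Real.exp c := Real.one_le_exp (by linarith)
      nlinarith
    have hb0 : (0 : ℝ) < b := by linarith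
    have h1 : Real.log Z + c ≤ Real.log b := by
      have h6 := Real.log_le_log hZc hb1.le
      rw [Real.log_mul hZ0.ne' (Real.exp_pos _).ne', Real.log_exp] at h6
      linarith
    have h2 : Real.log b - (Real.log Z + c) ≤ 1 / Z := by
      have h3 : Real.log b - (Real.log Z + c) = Real.log (b / (Z * Real.exp c)) := by
        rw [Real.log_div hb0.ne' hZc.ne', Real.log_mul hZ0.ne' (Real.exp_pos _).ne', Real.log_exp]
      rw [h3]
      refine (Real.log_le_sub_one_of_pos (by positivity)).trans ?_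
      rw [div_sub_one hZc.ne', div_le_div_iff₀ hZc hZ0]
      have h5 : (b : ℝ) - Z * Real.exp c ≤ 1 := by linarith
      calc ((b : ℝ) - Z * Real.exp c) * Z ≤ 1 * Z := by gcongr
        _ ≤ 1 * (Z * Real.exp c) := by gcongr
    rw [abs_le]
    constructor
    · have : (0 : ℝ) ≤ 1 / Z := by positivity
      linarith
    · linarith
  have hZη : 1 / Z ≤ Z ^ (-η) := by
    rw [one_div, ← Real.rpow_neg_one]
    exact Real.rpow_le_rpow_of_exponent_le hZ1 (by linarith)
  have haη : (a : ℝ) ^ (-η) ≤ 27 * Z ^ (-η) := by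
    have h1 : (a : ℝ) ^ (-η) ≤ (Z * (1 / 27)) ^ (-η) := by
      refine Real.rpow_le_rpow_of_nonpos (by positivity) ?_ (by linarith)
      calc Z * (1 / 27) ≤ Z * Real.exp (-c) := by gcongr
        _ ≤ a := ha1
    have h2 : (Z * (1 / 27)) ^ (-η) = Z ^ (-η) * 27 ^ η := by
      rw [Real.mul_rpow hZ0.le (by norm_num), Real.rpow_neg (by norm_num : (0 : ℝ) ≤ 1 / 27),
        one_div, Real.inv_rpow (by norm_num), inv_inv]
    have h3 : (27 : ℝ) ^ η ≤ 27 ^ (1 : ℝ) :=
      Real.rpow_le_rpow_of_exponent_le (by norm_num) (by linarith)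
    rw [Real.rpow_one] at h3
    have h4 : (0 : ℝ) ≤ Z ^ (-η) := by positivity
    rw [h2] at h1
    nlinarith
  rw [hsum, hint]
  have hfin : (∑ n ∈ Ico a b, er (-(τ : ℝ)) (Real.log n) / (n : ℂ)) -
      ∫ s in (Real.log Z - c)..(Real.log Z + c), er (-(τ : ℝ)) s =
      kernT (-(τ : ℝ)) a b + ((∫ s in (Real.log a)..(Real.log Z - c), er (-(τ : ℝ)) s) +
      ∫ s in (Real.log Z + c)..(Real.log b), er (-(τ : ℝ)) s) := by
    rw [← hdiff]
    unfold kernT
    ring
  rw [hfin]
  calc _ ≤ ‖kernT (-(τ : ℝ)) a b‖ + (‖∫ s in (Real.log a)..(Real.log Z - c), er (-(τ : ℝ)) s‖ +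
      ‖∫ s in (Real.log Z + c)..(Real.log b), er (-(τ : ℝ)) s‖) :=
        (norm_add_le _ _).trans (by gcongr; exact norm_add_le _ _)
    _ ≤ ((7 : ℕ) : ℝ) * C * (a : ℝ) ^ (-η) + (27 / Z + 1 / Z) := by gcongr
    _ ≤ ((7 : ℕ) : ℝ) * C * (27 * Z ^ (-η)) + 28 * Z ^ (-η) := by
        have : 27 / Z + 1 / Z = 28 * (1 / Z) := by ring
        rw [this]
        gcongr
    _ = _ := by push_cast; ring

/-- the trapezoid as a superposition of windows -/
theorem kern_Wt (s : ℝ) (z : ℂ) :
    ∫ c in Set.Ioc (2 : ℝ) 3, (if |s| ≤ c then z else 0) = (Wt s : ℂ) * z := by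
  have h1 : (fun c : ℝ => if |s| ≤ c then z else 0) = (Set.Ici |s|).indicator (fun _ => z) := by
    funext c
    simp [Set.indicator]
  rw [h1, MeasureTheory.setIntegral_indicator measurableSet_Ici, MeasureTheory.setIntegral_const]
  have h2 : MeasureTheory.volume.real (Set.Ioc (2 : ℝ) 3 ∩ Set.Ici |s|) = Wt s := by
    unfold Wt
    by_cases h : |s| ≤ 2
    · have h3 : Set.Ioc (2 : ℝ) 3 ∩ Set.Ici |s| = Set.Ioc (2 : ℝ) 3 := by
        refine Set.inter_eq_left.2 fun c hc => ?_
        exact (h.trans hc.1.le)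
      rw [h3, Real.volume_real_Ioc_of_le (by norm_num), min_eq_left (by linarith),
        max_eq_right (by norm_num)]
      norm_num
    · push Not at h
      have h3 : Set.Ioc (2 : ℝ) 3 ∩ Set.Ici |s| = Set.Icc |s| 3 := by
        ext c
        simp only [Set.mem_inter_iff, Set.mem_Ioc, Set.mem_Ici, Set.mem_Icc]
        constructor
        · rintro ⟨⟨_, h5⟩, h6⟩
          exact ⟨h6, h5⟩
        · rintro ⟨h5, h6⟩
          exact ⟨⟨by linarith, h6⟩, h5⟩
      rw [h3, Real.volume_real_Icc, min_eq_right (by linarith), max_comm]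
  rw [h2]
  simp

theorem kern_fubini (τ : ℤ) :
    ∫ s in (-Real.pi)..Real.pi, (Wt s : ℂ) * ch τ s =
      ∫ c in Set.Ioc (2 : ℝ) 3, ∫ s in (-c)..c, ch τ s := by
  have hpi := Real.pi_gt_three
  have hcont : Continuous (fun s : ℝ => ch τ s) := by
    unfold ch
    fun_prop
  rw [intervalIntegral.integral_of_le (by linarith)]
  have h1 : ∀ s : ℝ, (Wt s : ℂ) * ch τ s =
      ∫ c in Set.Ioc (2 : ℝ) 3, (if |s| ≤ c then ch τ s else 0) := fun s => (kern_Wt s _).symm
  simp only [h1]
  have hmeas : Measurable (fun p : ℝ × ℝ => if |p.1| ≤ p.2 then ch τ p.1 else 0) := by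
    refine Measurable.ite ?_ (hcont.measurable.comp measurable_fst) measurable_const
    exact measurableSet_le (by fun_prop) (by fun_prop)
  rw [MeasureTheory.integral_integral_swap (f := fun s c : ℝ => if |s| ≤ c then ch τ s else 0)]
  · refine MeasureTheory.setIntegral_congr_fun measurableSet_Ioc fun c hc => ?_
    show ∫ s in Set.Ioc (-Real.pi) Real.pi, (if |s| ≤ c then ch τ s else 0) =
      ∫ s in (-c)..c, ch τ s
    have h2 : (fun s : ℝ => if |s| ≤ c then ch τ s else 0) =
        (Set.Icc (-c) c).indicator (fun s => ch τ s) := by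
      funext s
      simp [Set.indicator, abs_le]
    rw [h2, MeasureTheory.setIntegral_indicator measurableSet_Icc]
    have h3 : Set.Ioc (-Real.pi) Real.pi ∩ Set.Icc (-c) c = Set.Icc (-c) c := by
      refine Set.inter_eq_right.2 fun s hs => ?_
      exact ⟨by linarith [hs.1, hc.2], by linarith [hs.2, hc.2]⟩
    rw [h3, MeasureTheory.integral_Icc_eq_integral_Ioc,
      intervalIntegral.integral_of_le (by linarith [hc.1])]
  · refine MeasureTheory.Integrable.of_bound hmeas.aestronglyMeasurable 1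
      (Filter.Eventually.of_forall fun p => ?_)
    simp only [Function.uncurry]
    split_ifs
    · rw [kern_ch_er]
      exact (kern_er_norm _ _).le
    · simp

theorem kern : ∃ (η : ℝ) (C : ℝ) (Z₀ : ℝ), 0 < η ∧ 0 < C ∧ ∀ Z : ℝ, Z₀ ≤ Z → ∀ τ : ℤ,
    |(τ : ℝ)| ≤ Z ^ 2 →
    ‖(∑ n ∈ Icc 1 ⌊Real.exp 3 * Z⌋₊,
        ((Wt (Real.log n - Real.log Z) / n : ℝ) : ℂ) * ch τ (Real.log n)) -
      ch τ (Real.log Z) * ∫ s in (-Real.pi)..Real.pi, (Wt s : ℂ) * ch τ s‖ ≤ C * Z ^ (-η) := by
  obtain ⟨η, C, hη, hη1, hC, hph⟩ := phase_sum 3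
  refine ⟨η, 7 * C * 27 + 28, Real.exp 9, hη, by positivity, fun Z hZ τ hτ => ?_⟩
  set N := ⌊Real.exp 3 * Z⌋₊ with hN
  have hcont : Continuous (fun s : ℝ => ch τ s) := by
    unfold ch
    fun_prop
  have hi1 : ∀ n : ℕ, MeasureTheory.IntegrableOn (fun c : ℝ =>
      if |Real.log n - Real.log Z| ≤ c then ch τ (Real.log n) / (n : ℂ) else 0)
      (Set.Ioc (2 : ℝ) 3) MeasureTheory.volume := by
    intro n
    refine MeasureTheory.Integrable.of_bound (Measurable.aestronglyMeasurable ?_)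
      ‖ch τ (Real.log n) / (n : ℂ)‖ (Filter.Eventually.of_forall fun c => ?_)
    · exact Measurable.ite (measurableSet_le measurable_const measurable_id) measurable_const
        measurable_const
    · split_ifs
      · exact le_rfl
      · rw [norm_zero]; exact norm_nonneg _
  have hi2 : MeasureTheory.IntegrableOn (fun c : ℝ => ∫ s in (-c)..c, ch τ s)
      (Set.Ioc (2 : ℝ) 3) MeasureTheory.volume := by
    have h1 : Continuous (fun c : ℝ => ∫ s in (-c)..c, ch τ s) := by
      have h2 : (fun c : ℝ => ∫ s in (-c)..c, ch τ s) = fun c : ℝ =>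
          (∫ s in (0 : ℝ)..c, ch τ s) - ∫ s in (0 : ℝ)..(-c), ch τ s := by
        funext c
        rw [intervalIntegral.integral_interval_sub_left
          (hcont.intervalIntegrable _ _) (hcont.intervalIntegrable _ _)]
      rw [h2]
      have h3 : Continuous (fun c : ℝ => ∫ s in (0 : ℝ)..c, ch τ s) :=
        intervalIntegral.continuous_primitive (fun a b => hcont.intervalIntegrable a b) 0
      exact h3.sub (h3.comp continuous_neg)
    exact (h1.integrableOn_Icc (a := 2) (b := 3)).mono_set Set.Ioc_subset_Icc_self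
  have hkey : (∑ n ∈ Icc 1 N,
        ((Wt (Real.log n - Real.log Z) / n : ℝ) : ℂ) * ch τ (Real.log n)) -
      ch τ (Real.log Z) * ∫ s in (-Real.pi)..Real.pi, (Wt s : ℂ) * ch τ s =
      ∫ c in Set.Ioc (2 : ℝ) 3, ((∑ n ∈ Icc 1 N,
        (if |Real.log n - Real.log Z| ≤ c then ch τ (Real.log n) / (n : ℂ) else 0)) -
      ch τ (Real.log Z) * ∫ s in (-c)..c, ch τ s) := by
    rw [MeasureTheory.integral_sub (MeasureTheory.integrable_finsetSum _ fun n _ => hi1 n)
      (hi2.const_mul _), MeasureTheory.integral_finsetSum _ (fun n _ => hi1 n),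
      MeasureTheory.integral_const_mul, kern_fubini]
    congr 1
    refine Finset.sum_congr rfl fun n _ => ?_
    rw [kern_Wt]
    push_cast
    ring
  rw [hkey]
  have hb : ∀ c ∈ Set.Ioc (2 : ℝ) 3, ‖(∑ n ∈ Icc 1 N,
        (if |Real.log n - Real.log Z| ≤ c then ch τ (Real.log n) / (n : ℂ) else 0)) -
      ch τ (Real.log Z) * ∫ s in (-c)..c, ch τ s‖ ≤ (7 * C * 27 + 28) * Z ^ (-η) := by
    intro c hc
    exact kern_window η C hη hη1 hC (fun a b τ => hph a b τ) Z hZ τ hτ c hc.1.le hc.2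
  have h := MeasureTheory.norm_setIntegral_le_of_norm_le_const
    (μ := MeasureTheory.volume) (s := Set.Ioc (2 : ℝ) 3) (by simp) hb
  rw [Real.volume_real_Ioc_of_le (by norm_num)] at h
  refine h.trans (le_of_eq ?_)
  norm_num

end Pool.Agent.H376R2.MR
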